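import Pool.Agent.N290.RJ.Stm

/-!
# RJ/S2S3 (project RJ of helper290, MP_ca0fc2_an): lengths along rays, mean value (helper704)
-/

set_option autoImplicit false

namespace Pool.Agent.N704.RJ

open Complex Set Pool.Agent.N290.RJ

variable {d : ℕ}

theorem ip_smul_right (t : ℝ) (z w : E d) : ip z (t • w) = t * ip z w := by
  have h : t • w = (t : ℂ) • w := by
    ext <;> simp
  rw [← ip_conj, h, ip_smul_left, map_mul, ip_conj, Complex.conj_ofReal]

theorem len2_smul_le {z : E d} (hz : z ∈ B d) {t : ℝ} (h0 : 0 ≤ t) (h1 : t ≤ 1) (ξ : E d) :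
    len2 (t • z) ξ ≤ 2 * ((1 - nm z) / (1 - t * nm z)) * len2 z ξ := by
  have hn0 := nm_nonneg z
  have hn1 : nm z < 1 := mem_B_nm.1 hz
  have hN := nm_sq z
  have hNx := N_nonneg ξ
  unfold len2
  rw [N_smul, ip_smul_right, norm_mul, Complex.norm_real, Real.norm_eq_abs, mul_pow, sq_abs, ← hN]
  set n := nm z with hn
  set a := N ξ
  set b := ‖ip ξ z‖ ^ 2
  have hb : 0 ≤ b := by positivity
  have htn : t * n ≤ n := by nlinarith
  have htn0 : 0 ≤ t * n := mul_nonneg h0 hn0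
  have e1 : 0 < 1 - t * n := by linarith
  have e2 : 0 < 1 + t * n := by linarith
  have e3 : 0 < 1 - n := by linarith
  have e4 : 0 < 1 + n := by linarith
  have e5 : 1 - t ^ 2 * n ^ 2 = (1 - t * n) * (1 + t * n) := by ring
  have e6 : 1 - n ^ 2 = (1 - n) * (1 + n) := by ring
  have ht2 : t ^ 2 ≤ 1 := pow_le_one₀ h0 h1
  have k1 : a / (1 - t ^ 2 * n ^ 2) ≤ 2 * ((1 - n) / (1 - t * n)) * (a / (1 - n ^ 2)) := by
    rw [e5, e6]
    have : 2 * ((1 - n) / (1 - t * n)) * (a / ((1 - n) * (1 + n))) =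
        (2 * (1 + t * n) / (1 + n)) * (a / ((1 - t * n) * (1 + t * n))) := by
      field_simp
    rw [this]
    refine le_mul_of_one_le_left (by positivity) ?_
    rw [le_div_iff₀ e4]
    linarith
  have k2 : t ^ 2 * b / (1 - t ^ 2 * n ^ 2) ^ 2 ≤
      2 * ((1 - n) / (1 - t * n)) * (b / (1 - n ^ 2) ^ 2) := by
    have k3 : t ^ 2 * b / (1 - t ^ 2 * n ^ 2) ^ 2 ≤
        b / ((1 - t ^ 2 * n ^ 2) * (1 - n ^ 2)) := by
      have f1 : 0 < 1 - t ^ 2 * n ^ 2 := by rw [e5]; positivity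
      have f2 : 0 < 1 - n ^ 2 := by rw [e6]; positivity
      rw [div_le_div_iff₀ (by positivity) (by positivity)]
      have f3 : t ^ 2 * (1 - n ^ 2) ≤ 1 - t ^ 2 * n ^ 2 := by nlinarith
      calc t ^ 2 * b * ((1 - t ^ 2 * n ^ 2) * (1 - n ^ 2)) =
          (b * (1 - t ^ 2 * n ^ 2)) * (t ^ 2 * (1 - n ^ 2)) := by ring
        _ ≤ (b * (1 - t ^ 2 * n ^ 2)) * (1 - t ^ 2 * n ^ 2) :=
          mul_le_mul_of_nonneg_left f3 (by positivity)
        _ = b * (1 - t ^ 2 * n ^ 2) ^ 2 := by ring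
    refine k3.trans ?_
    rw [e5, e6]
    have : 2 * ((1 - n) / (1 - t * n)) * (b / ((1 - n) * (1 + n)) ^ 2) =
        (2 * (1 + t * n) / (1 + n)) * (b / ((1 - t * n) * (1 + t * n) * ((1 - n) * (1 + n)))) := by
      field_simp
    rw [this]
    refine le_mul_of_one_le_left (by positivity) ?_
    rw [le_div_iff₀ e4]
    linarith
  calc a / (1 - t ^ 2 * n ^ 2) + t ^ 2 * b / (1 - t ^ 2 * n ^ 2) ^ 2 ≤
      2 * ((1 - n) / (1 - t * n)) * (a / (1 - n ^ 2)) +
        2 * ((1 - n) / (1 - t * n)) * (b / (1 - n ^ 2) ^ 2) := add_le_add k1 k2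
    _ = _ := by ring

theorem len_smul_self_le {z : E d} (hz : z ∈ B d) {t : ℝ} (h0 : 0 ≤ t) (h1 : t ≤ 1) :
    len (t • z) z ≤ nm z / (1 - t * nm z) := by
  have hn0 := nm_nonneg z
  have hn1 : nm z < 1 := mem_B_nm.1 hz
  have hN := nm_sq z
  have h2 : len2 (t • z) z = (nm z / (1 - t ^ 2 * nm z ^ 2)) ^ 2 := by
    unfold len2
    rw [N_smul, ip_smul_right, ip_self, norm_mul, Complex.norm_real, Complex.norm_real,
      Real.norm_eq_abs, Real.norm_eq_abs, mul_pow, sq_abs, sq_abs, ← hN]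
    set n := nm z with hn
    have htn : t * n ≤ n := by nlinarith
    have htn0 : 0 ≤ t * n := mul_nonneg h0 hn0
    have f1 : 0 < 1 - t ^ 2 * n ^ 2 := by
      have : 1 - t ^ 2 * n ^ 2 = (1 - t * n) * (1 + t * n) := by ring
      rw [this]
      have e1 : 0 < 1 - t * n := by linarith
      positivity
    field_simp
    ring
  have htn : t * nm z ≤ nm z := by nlinarith
  have htn0 : 0 ≤ t * nm z := mul_nonneg h0 hn0
  have e1 : 0 < 1 - t * nm z := by linarith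
  have h3 : (t * nm z) ^ 2 ≤ t * nm z := by nlinarith
  have h4 : 1 - t * nm z ≤ 1 - t ^ 2 * nm z ^ 2 := by nlinarith
  unfold len
  rw [h2, Real.sqrt_sq (div_nonneg hn0 (by linarith))]
  exact div_le_div_of_nonneg_left hn0 e1 h4

theorem S2 (d : ℕ) : Pool.Agent.N290.RJ.S2 d := by
  intro z hz t h0 h1
  refine ⟨fun ξ => ?_, len_smul_self_le hz h0 h1⟩
  have h2 := len2_smul_le hz h0 h1 ξ
  have hn0 := nm_nonneg z
  have hn1 : nm z < 1 := mem_B_nm.1 hz
  have htn : t * nm z ≤ nm z := by nlinarith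
  have h3 : 0 ≤ (1 - nm z) / (1 - t * nm z) := div_nonneg (by linarith) (by linarith)
  unfold len
  calc Real.sqrt (len2 (t • z) ξ) ≤
      Real.sqrt (2 * ((1 - nm z) / (1 - t * nm z)) * len2 z ξ) := Real.sqrt_le_sqrt h2
    _ = _ := by
      rw [Real.sqrt_mul (mul_nonneg (by norm_num) h3), Real.sqrt_mul (by norm_num)]

theorem len_pos (z : E d) (hz : z ∈ B d) : 0 < len z ((1, 0) : E d) := by
  unfold len
  refine Real.sqrt_pos.2 ?_
  unfold len2
  have h1 : N ((1, 0) : E d) = 1 := by simp [N]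
  have h2 : 0 < 1 - N z := sub_pos.2 hz
  rw [h1]
  positivity

theorem S3 (d : ℕ) : Pool.Agent.N290.RJ.S3 d := by
  intro φ z t₀ t₁ A hφ hz h0 h01 h1 hA
  have hn0 := nm_nonneg z
  have hn1 : nm z < 1 := mem_B_nm.1 hz
  have hA0 : 0 ≤ A := by
    have hz0 : t₀ • z ∈ B d := smul_mem_B hz h0 (h01.trans h1)
    have h2 := (norm_nonneg _).trans (hA t₀ le_rfl h01 ((1, 0) : E d))
    by_contra hneg
    have := mul_neg_of_neg_of_pos (not_le.1 hneg) (len_pos (t₀ • z) hz0)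
    linarith
  have hder : ∀ s ∈ Icc t₀ t₁, HasDerivWithinAt (fun s : ℝ => φ (s • z))
      (fderiv ℝ φ (s • z) z) (Icc t₀ t₁) s := by
    intro s hs
    have hsz : s • z ∈ B d := smul_mem_B hz (h0.trans hs.1) (hs.2.trans h1)
    have h2 : HasFDerivAt φ (fderiv ℝ φ (s • z)) (s • z) :=
      (hφ.differentiableAt (B_open.mem_nhds hsz)).hasFDerivAt
    have h3 : HasDerivAt (fun s : ℝ => s • z) z s := by
      simpa using (hasDerivAt_id s).smul_const z
    exact (h2.comp_hasDerivAt s h3).hasDerivWithinAt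
  have hbd : ∀ s ∈ Icc t₀ t₁, ‖fderiv ℝ φ (s • z) z‖ ≤ A * (nm z / (1 - t₁ * nm z)) := by
    intro s hs
    refine (hA s hs.1 hs.2 z).trans (mul_le_mul_of_nonneg_left ?_ hA0)
    refine (len_smul_self_le hz (h0.trans hs.1) (hs.2.trans h1)).trans ?_
    have h4 : s * nm z ≤ t₁ * nm z := mul_le_mul_of_nonneg_right hs.2 hn0
    have h5 : t₁ * nm z ≤ nm z := by nlinarith
    exact div_le_div_of_nonneg_left hn0 (by linarith) (by linarith)
  have h6 := (convex_Icc t₀ t₁).norm_image_sub_le_of_norm_hasDerivWithin_le hder hbd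
    (left_mem_Icc.2 h01) (right_mem_Icc.2 h01)
  refine h6.trans (le_of_eq ?_)
  rw [Real.norm_eq_abs, abs_of_nonneg (sub_nonneg.2 h01)]
  ring

end Pool.Agent.N704.RJ

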